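import Pool.Agent.Helper75.CR.St

/-!
# Project CR (MP_265e56_al), module C (helper64)
-/

set_option autoImplicit false

namespace Pool.Agent.Helper64.CR

open Helper75.CR Helper1.IM

theorem hC : Helper75.CR.StC := by
  intro B S θ ρ hθ hρ a b s t hab hst u v hu huv
  have hv : v ≠ [] := ne_nil_of_cn huv hu
  obtain ⟨u', hu', hu2⟩ := S.sur a.2 u hu
  obtain ⟨v', hv', hv2⟩ := S.sur b.2 v hv
  have cu' : cn u' = cn u := by rw [← hu2, S.cng]
  have cv' : cn v' = cn u := by rw [huv, ← hv2, S.cng]
  let f : ℕ → Wo B := fun l => if l = a.1 then u' else if l = b.1 then v' else u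
  have hfa : f a.1 = u' := if_pos rfl
  have hfb : f b.1 = v' := by
    show (if b.1 = a.1 then u' else if b.1 = b.1 then v' else u) = v'
    rw [if_neg (Ne.symm hab), if_pos rfl]
  have hf : ∀ l, f l ≠ [] := by
    intro l
    show (if l = a.1 then u' else if l = b.1 then v' else u) ≠ []
    split_ifs
    · exact hu'
    · exact hv'
    · exact hu
  have hc : ∀ l, cn (f l) = cn u := by
    intro l
    show cn (if l = a.1 then u' else if l = b.1 then v' else u) = cn u
    split_ifs
    · exact cu'
    · exact cv'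
    · rfl
  have hsub : ∀ w : Wo B, cn (sB S f w) ⊆ cn u := by
    intro w
    rw [cn_sB]
    exact Finset.biUnion_subset.mpr (fun i _ => (hc i).le)
  have key := hst.sub f hf
  rw [sB_cons, sB_cons, hfa, hfb, hu2, hv2] at key
  have h1 : Er ρ u (u ++ sB S f s) := hθ.extρ hρ hu (hsub s)
  have h2 : Er ρ v (v ++ sB S f t) := hθ.extρ hρ hv (huv ▸ hsub t)
  exact h1.trans (key.trans h2.symm)

end Pool.Agent.Helper64.CR
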