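import Pool.Agent.Helper75.CR.St3

/-!
# Project CR (MP_265e56_al), module Q5 (helper64)
-/

set_option autoImplicit false

namespace Pool.Agent.Helper64.CR

open Helper75.CR Helper1.IM

theorem hQ5 (hQ2 : Helper75.CR.StQ2) (hQ3 : Helper75.CR.StQ3) (hQ4 : Helper75.CR.StQ4) :
    Helper75.CR.StQ5 := by
  intro θ hc hp hs hn α β γ hα hβ hγ hαγ u v hj hg
  have dich : ∀ ρ : FIC, Le θ ρ → (Helper75.CR.P3 ρ ∨ SCP ρ) := by
    intro ρ hρ
    by_cases h : SCP ρ
    · exact Or.inr h
    · left
      unfold SCP at h
      push Not at h
      obtain ⟨a, b, hab, hnab⟩ := h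
      exact hQ3 ρ (hc.mono hρ) (hp.mono hρ) a b hab hnab
  have dα := dich α hα
  have dβ := dich β hβ
  by_cases h3 : Helper75.CR.P3 α ∨ Helper75.CR.P3 β
  · exact hQ4 θ α β γ hc hp hs hα hβ hαγ dα dβ h3 u v hj hg
  · push Not at h3
    have sα : SCP α := dα.resolve_left h3.1
    have sβ : SCP β := dβ.resolve_left h3.2
    by_cases hu : u = []
    · have hall : ∀ v, Jn α β u v → SC u v := by
        intro v hv
        induction hv with
        | refl => exact fun a => Iff.rfl
        | tail _ hstep ih =>
          rcases hstep with h | h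
          · exact fun a => (ih a).trans (sα _ _ h a)
          · exact fun a => (ih a).trans (sβ _ _ h a)
      have huv := hall v hj
      have hv : v = [] := by
        rw [List.eq_nil_iff_forall_not_mem]
        intro a ha
        have := (huv a).mpr ha
        rw [hu] at this
        simp at this
      rw [hu, hv]
      exact Relation.ReflTransGen.refl
    · have key : ∀ v, Jn α β u v → ∃ w, SC u w ∧ α.r u w ∧ β.r w v := by
        intro v hv
        induction hv with
        | refl => exact ⟨u, fun a => Iff.rfl, α.refl' u, β.refl' u⟩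
        | @tail b c _ hstep ih =>
          obtain ⟨w, h1, h2, h3⟩ := ih
          rcases hstep with h | h
          · have hw : w ≠ [] := by
              intro hw
              apply hu
              rw [List.eq_nil_iff_forall_not_mem]
              intro a ha
              have := (h1 a).mp ha
              rw [hw] at this
              simp at this
            obtain ⟨w', k1, k2, k3⟩ := hQ2 θ β α hc hp hn hβ hα sβ sα w b c hw
              (sβ _ _ h3) (sα _ _ h) h3 h
            exact ⟨w', fun a => (h1 a).trans (k1 a), α.trans' h2 k2, k3⟩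
          · exact ⟨w, h1, h2, β.trans' h3 h⟩
      obtain ⟨w, _, h2, h3⟩ := key v hj
      have h4 : γ.r w v := γ.trans' (γ.symm' (hαγ _ _ h2)) hg
      exact Relation.ReflTransGen.head (Or.inl h2) (Relation.ReflTransGen.single (Or.inr ⟨h3, h4⟩))

end Pool.Agent.Helper64.CR
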